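import Pool.Agent.H96.Kneser

/-!
# A sumset bound in the integers from Kneser's theorem

Let `I` be a finite set of integers in `[0, l]` that contains `0` and `l` and whose elements have
no common divisor but `1`, and let `B` be a nonempty finite set of integers contained in an
interval of length at most `l`. Then `|I + B| ≥ |B| + min(l, |I| + |B| - 2 - δ)`, where `δ = 1`
if the interval has length exactly `l` and `δ = 0` otherwise.
-/

namespace Pool.Agent.H96.FLS

open Finset
open scoped Pointwise

/-- Reduction modulo `l`. -/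
def red (l : ℕ) (x : ℤ) : ZMod l := (x : ZMod l)

theorem red_add (l : ℕ) (x y : ℤ) : red l (x + y) = red l x + red l y := by
  simp [red]

theorem red_zero (l : ℕ) : red l 0 = 0 := by simp [red]

theorem red_self (l : ℕ) : red l (l : ℤ) = 0 := by simp [red]

theorem red_eq_iff (l : ℕ) (x y : ℤ) : red l x = red l y ↔ (l : ℤ) ∣ y - x := by
  unfold red
  exact ZMod.intCast_eq_intCast_iff_dvd_sub x y l

/-- Each class that meets `B` or `I + B` is met by `I + B` more often than by `B`. -/
theorem fibre_lt (l : ℕ) (hl : 0 < l) (I B : Finset ℤ) (h0 : (0 : ℤ) ∈ I) (hlI : (l : ℤ) ∈ I)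
    (r : ZMod l) (hr : ∃ s ∈ I + B, red l s = r) :
    (B.filter (fun b => red l b = r)).card + 1 ≤ ((I + B).filter (fun s => red l s = r)).card := by
  classical
  rcases (B.filter (fun b => red l b = r)).eq_empty_or_nonempty with he | hne
  · rw [he]
    obtain ⟨s, hs, hsr⟩ := hr
    have : s ∈ (I + B).filter (fun s => red l s = r) := Finset.mem_filter.2 ⟨hs, hsr⟩
    simpa using Finset.card_pos.2 ⟨s, this⟩
  · set F := B.filter (fun b => red l b = r) with hF
    have hm := F.max'_mem hne
    have hmB : F.max' hne ∈ B ∧ red l (F.max' hne) = r := Finset.mem_filter.1 hm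
    have hnot : (l : ℤ) + F.max' hne ∉ F := by
      intro h
      have := F.le_max' _ h
      have hl' : (0 : ℤ) < l := by exact_mod_cast hl
      linarith
    have hsub : insert ((l : ℤ) + F.max' hne) F ⊆ (I + B).filter (fun s => red l s = r) := by
      intro x hx
      rcases Finset.mem_insert.1 hx with rfl | hx
      · refine Finset.mem_filter.2 ⟨Finset.add_mem_add hlI hmB.1, ?_⟩
        rw [red_add, red_self, zero_add, hmB.2]
      · have hx' := Finset.mem_filter.1 hx
        refine Finset.mem_filter.2 ⟨?_, hx'.2⟩
        have := Finset.add_mem_add h0 hx'.1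
        rwa [zero_add] at this
    have := Finset.card_le_card hsub
    rwa [Finset.card_insert_of_notMem hnot] at this

/-- Counting a finite set by its classes. -/
theorem card_filter_mem (l : ℕ) (S : Finset ℤ) (T : Finset (ZMod l)) :
    (S.filter (fun s => red l s ∈ T)).card =
      ∑ r ∈ T, (S.filter (fun s => red l s = r)).card := by
  classical
  rw [Finset.card_eq_sum_card_fiberwise (f := red l) (t := T)]
  · apply Finset.sum_congr rfl
    intro r hr
    congr 1
    ext x
    simp only [Finset.mem_filter]
    constructor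
    · rintro ⟨⟨h1, h2⟩, h3⟩
      exact ⟨h1, h3⟩
    · rintro ⟨h1, h2⟩
      exact ⟨⟨h1, by rw [h2]; exact hr⟩, h2⟩
  · intro x hx
    exact (Finset.mem_filter.1 hx).2

theorem part_one (l : ℕ) (hl : 0 < l) (I B : Finset ℤ) (h0 : (0 : ℤ) ∈ I) (hlI : (l : ℤ) ∈ I)
    (T : Finset (ZMod l)) (hT : T ⊆ (I + B).image (red l)) (hBT : B.image (red l) ⊆ T) :
    T.card + B.card ≤ ((I + B).filter (fun s => red l s ∈ T)).card := by
  classical
  rw [card_filter_mem]
  have h1 : B.card = ∑ r ∈ T, (B.filter (fun s => red l s = r)).card := by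
    rw [← card_filter_mem]
    congr 1
    ext x
    simp only [Finset.mem_filter]
    constructor
    · intro hx
      exact ⟨hx, hBT (Finset.mem_image_of_mem _ hx)⟩
    · exact fun hx => hx.1
  rw [h1]
  calc T.card + ∑ r ∈ T, (B.filter (fun s => red l s = r)).card
      = ∑ r ∈ T, ((B.filter (fun s => red l s = r)).card + 1) := by
        rw [Finset.sum_add_distrib]; simp [add_comm]
    _ ≤ _ := by
        apply Finset.sum_le_sum
        intro r hr
        obtain ⟨s, hs, hsr⟩ := Finset.mem_image.1 (hT hr)
        exact fibre_lt l hl I B h0 hlI r ⟨s, hs, hsr⟩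

theorem part_two (l : ℕ) (S : Finset ℤ) (T : Finset (ZMod l)) (hT : T ⊆ S.image (red l)) :
    T.card ≤ (S.filter (fun s => red l s ∈ T)).card := by
  classical
  rw [card_filter_mem, Finset.card_eq_sum_ones]
  apply Finset.sum_le_sum
  intro r hr
  obtain ⟨s, hs, hsr⟩ := Finset.mem_image.1 (hT hr)
  exact Finset.card_pos.2 ⟨s, Finset.mem_filter.2 ⟨hs, hsr⟩⟩

/-- A subgroup of the integers modulo `l` that contains all classes of `I` is everything. -/
theorem eq_top_of_mem (l : ℕ) (I : Finset ℤ)
    (hgcd : ∀ d : ℕ, (∀ x ∈ I, (d : ℤ) ∣ x) → d = 1) (H : AddSubgroup (ZMod l))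
    (hH : ∀ x ∈ I, red l x ∈ H) : H = ⊤ := by
  obtain ⟨a, ha⟩ := Int.subgroup_cyclic (H.comap (Int.castAddHom (ZMod l)))
  have hd : a.natAbs = 1 := by
    apply hgcd
    intro x hx
    have hx' : x ∈ H.comap (Int.castAddHom (ZMod l)) := by
      rw [AddSubgroup.mem_comap]
      exact hH x hx
    rw [ha] at hx'
    rw [AddSubgroup.mem_closure_singleton] at hx'
    obtain ⟨k, hk⟩ := hx'
    rw [Int.natAbs_dvd]
    exact ⟨k, by rw [← hk]; simp [mul_comm]⟩
  have h1 : (1 : ℤ) ∈ H.comap (Int.castAddHom (ZMod l)) := by
    rw [ha, AddSubgroup.mem_closure_singleton]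
    rcases Int.natAbs_eq a with h | h
    · exact ⟨1, by rw [h, hd]; simp⟩
    · exact ⟨-1, by rw [h, hd]; simp⟩
  have h1' : (1 : ZMod l) ∈ H := by
    have := AddSubgroup.mem_comap.1 h1
    simpa using this
  rw [AddSubgroup.eq_top_iff']
  intro x
  obtain ⟨n, rfl⟩ := ZMod.intCast_surjective x
  have := H.zsmul_mem h1' n
  simpa using this

theorem card_add_int (A B : Finset ℤ) (hA : A.Nonempty) (hB : B.Nonempty) :
    A.card + B.card ≤ (A + B).card + 1 := by
  have := cauchy_davenport_add_of_linearOrder_isCancelAdd hA hB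
  omega

/-- The main inequality, in terms of the classes of `I` and `B`. -/
theorem fls_core (l : ℕ) (hl : 0 < l) (I B : Finset ℤ) (hB : B.Nonempty)
    (h0 : (0 : ℤ) ∈ I) (hlI : (l : ℤ) ∈ I)
    (hgcd : ∀ d : ℕ, (∀ x ∈ I, (d : ℤ) ∣ x) → d = 1) :
    l + B.card ≤ (I + B).card ∨
      B.card + (I.image (red l)).card + (B.image (red l)).card ≤ (I + B).card + 1 := by
  classical
  haveI : NeZero l := ⟨hl.ne'⟩
  set A' := I.image (red l) with hA'
  set B' := B.image (red l) with hB'
  set S' := (I + B).image (red l) with hS'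
  have hsum : A' + B' = S' := by
    ext z
    constructor
    · intro hz
      obtain ⟨p, hp, q, hq, rfl⟩ := Finset.mem_add.1 hz
      obtain ⟨x, hx, rfl⟩ := Finset.mem_image.1 hp
      obtain ⟨y, hy, rfl⟩ := Finset.mem_image.1 hq
      exact Finset.mem_image.2 ⟨x + y, Finset.add_mem_add hx hy, red_add l x y⟩
    · intro hz
      obtain ⟨s, hs, rfl⟩ := Finset.mem_image.1 hz
      obtain ⟨x, hx, y, hy, rfl⟩ := Finset.mem_add.1 hs
      rw [red_add]
      exact Finset.add_mem_add (Finset.mem_image_of_mem _ hx) (Finset.mem_image_of_mem _ hy)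
  have hA'ne : A'.Nonempty := ⟨red l 0, Finset.mem_image_of_mem _ h0⟩
  have hB'ne : B'.Nonempty := hB.image _
  obtain ⟨H, Hf, hHf, hper, hk⟩ := Pool.Agent.H96.Kneser.kneser A' B' hA'ne hB'ne
  rw [hsum] at hper hk
  have hzero : (0 : ZMod l) ∈ A' := by
    have := Finset.mem_image_of_mem (red l) h0
    rwa [red_zero] at this
  have hHfcard : Hf.card = Nat.card H := by
    have : Nat.card H = Nat.card (Hf : Set (ZMod l)) := by
      apply Nat.card_congr
      exact Equiv.subtypeEquivRight (fun x => (hHf x).symm)
    rw [this]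
    simp
  have hBS : ∀ b ∈ B', ∀ h ∈ H, b + h ∈ S' := by
    intro b hb h hh
    apply hper h hh
    rw [← hsum]
    have := Finset.add_mem_add hzero hb
    rwa [zero_add] at this
  set T := B' + Hf with hT
  have hTS : T ⊆ S' := by
    intro z hz
    obtain ⟨p, hp, q, hq, rfl⟩ := Finset.mem_add.1 hz
    exact hBS p hp q ((hHf q).1 hq)
  have hBT : B' ⊆ T := by
    intro z hz
    have := Finset.add_mem_add hz ((hHf 0).2 H.zero_mem)
    rwa [add_zero] at this
  have hAT : A' ⊆ A' + Hf := by
    intro z hz
    have := Finset.add_mem_add hz ((hHf 0).2 H.zero_mem)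
    rwa [add_zero] at this
  by_cases hcase : S' ⊆ T
  · left
    have hST : S' = T := Finset.Subset.antisymm hcase hTS
    have hle : (A' + Hf).card ≤ Hf.card := by
      rw [hHfcard]
      rw [hST] at hk
      omega
    have hsub : Hf ⊆ A' + Hf := by
      intro z hz
      have := Finset.add_mem_add hzero hz
      rwa [zero_add] at this
    have heq : Hf = A' + Hf := Finset.eq_of_subset_of_card_le hsub hle
    have htop : H = ⊤ := by
      apply eq_top_of_mem l I hgcd
      intro x hx
      rw [← hHf, heq]
      exact hAT (Finset.mem_image_of_mem _ hx)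
    have hSuniv : S' = Finset.univ := by
      rw [Finset.eq_univ_iff_forall]
      intro x
      obtain ⟨b, hb⟩ := hB'ne
      have := hBS b hb (x - b) (by rw [htop]; trivial)
      rwa [add_sub_cancel] at this
    have h1 := part_one l hl I B h0 hlI S' (Finset.Subset.refl _) (hBT.trans hTS)
    have h2 : S'.card = l := by
      rw [hSuniv, Finset.card_univ, ZMod.card]
    have h3 := Finset.card_filter_le (I + B) (fun s => red l s ∈ S')
    omega
  · right
    obtain ⟨c, hcS, hcT⟩ := Finset.not_subset.1 hcase
    obtain ⟨s, hs, hsc⟩ := Finset.mem_image.1 hcS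
    obtain ⟨i, hi, j, hj, hij⟩ := Finset.mem_add.1 hs
    -- the coset of c
    set C := ({c} : Finset (ZMod l)) + Hf with hC
    have hmemC : ∀ z, z ∈ C ↔ z - c ∈ H := by
      intro z
      rw [hC, Finset.mem_add]
      constructor
      · rintro ⟨p, hp, q, hq, rfl⟩
        rw [Finset.mem_singleton.1 hp]
        simpa using (hHf q).1 hq
      · intro hz
        exact ⟨c, Finset.mem_singleton_self _, z - c, (hHf _).2 hz, by abel⟩
    have hCcard : C.card = Hf.card := by
      rw [hC, Finset.singleton_add]
      simp
    have hCS : C ⊆ S' := by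
      intro z hz
      have := hper _ ((hmemC z).1 hz) c hcS
      rwa [add_sub_cancel] at this
    have hmemT : ∀ z, z ∈ T ↔ ∃ b ∈ B', z - b ∈ H := by
      intro z
      rw [hT, Finset.mem_add]
      constructor
      · rintro ⟨p, hp, q, hq, rfl⟩
        exact ⟨p, hp, by simpa using (hHf q).1 hq⟩
      · rintro ⟨b, hb, hz⟩
        exact ⟨b, hb, z - b, (hHf _).2 hz, by abel⟩
    have hdisj : Disjoint T C := by
      rw [Finset.disjoint_left]
      intro z hzT hzC
      apply hcT
      obtain ⟨b, hb, hzb⟩ := (hmemT z).1 hzT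
      refine (hmemT c).2 ⟨b, hb, ?_⟩
      have := H.sub_mem hzb ((hmemC z).1 hzC)
      have e : z - b - (z - c) = c - b := by abel
      rwa [e] at this
    -- the parts of I and B in the cosets of i and j
    set Ii := I.filter (fun x => red l x - red l i ∈ H) with hIi
    set Bj := B.filter (fun y => red l y - red l j ∈ H) with hBj
    have hIine : Ii.Nonempty := ⟨i, Finset.mem_filter.2 ⟨hi, by simp [H.zero_mem]⟩⟩
    have hBjne : Bj.Nonempty := ⟨j, Finset.mem_filter.2 ⟨hj, by simp [H.zero_mem]⟩⟩
    have hcij : c = red l i + red l j := by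
      rw [← hsc, ← hij, red_add]
    have hIB : Ii + Bj ⊆ (I + B).filter (fun s => red l s ∈ C) := by
      intro z hz
      obtain ⟨p, hp, q, hq, rfl⟩ := Finset.mem_add.1 hz
      have hp' := Finset.mem_filter.1 hp
      have hq' := Finset.mem_filter.1 hq
      refine Finset.mem_filter.2 ⟨Finset.add_mem_add hp'.1 hq'.1, ?_⟩
      rw [hmemC, red_add, hcij]
      have := H.add_mem hp'.2 hq'.2
      have e : red l p - red l i + (red l q - red l j)
          = red l p + red l q - (red l i + red l j) := by abel
      rwa [e] at this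
    have hcount2 := Finset.card_le_card hIB
    have hcount2' := card_add_int Ii Bj hIine hBjne
    have hcount1 := part_one l hl I B h0 hlI T hTS hBT
    set R := S' \ (T ∪ C) with hR
    have hRS : R ⊆ S' := Finset.sdiff_subset
    have hcount3 := part_two l (I + B) R hRS
    have hRcard : R.card + T.card + Hf.card = S'.card := by
      have h1 : (T ∪ C).card = T.card + C.card := Finset.card_union_of_disjoint hdisj
      have h2 : T ∪ C ⊆ S' := Finset.union_subset hTS hCS
      have h3 : R.card + (T ∪ C).card = S'.card := Finset.card_sdiff_add_card_eq_card h2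
      omega
    have htotal : ((I + B).filter (fun s => red l s ∈ T)).card
        + ((I + B).filter (fun s => red l s ∈ C)).card
        + ((I + B).filter (fun s => red l s ∈ R)).card ≤ (I + B).card := by
      rw [card_filter_mem, card_filter_mem, card_filter_mem]
      rw [← Finset.sum_union hdisj, ← Finset.sum_union (Finset.disjoint_sdiff),
        ← card_filter_mem]
      exact Finset.card_filter_le _ _
    -- the class sets
    have hAi : A'.card + Hf.card ≤ (A' + Hf).card + Ii.card := by
      set D := ({red l i} : Finset (ZMod l)) + Hf with hD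
      have hmemD : ∀ z, z ∈ D ↔ z - red l i ∈ H := by
        intro z
        rw [hD, Finset.mem_add]
        constructor
        · rintro ⟨p, hp, q, hq, rfl⟩
          rw [Finset.mem_singleton.1 hp]
          simpa using (hHf q).1 hq
        · intro hz
          exact ⟨red l i, Finset.mem_singleton_self _, z - red l i, (hHf _).2 hz, by abel⟩
      have hDcard : D.card = Hf.card := by
        rw [hD, Finset.singleton_add]
        simp
      have hDsub : D ⊆ A' + Hf := by
        apply Finset.add_subset_add_right
        rw [Finset.singleton_subset_iff]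
        exact Finset.mem_image_of_mem _ hi
      have h1 : A' ⊆ ((A' + Hf) \ D) ∪ Ii.image (red l) := by
        intro z hz
        by_cases hzD : z ∈ D
        · refine Finset.mem_union_right _ ?_
          obtain ⟨x, hx, rfl⟩ := Finset.mem_image.1 hz
          exact Finset.mem_image_of_mem _ (Finset.mem_filter.2 ⟨hx, (hmemD _).1 hzD⟩)
        · exact Finset.mem_union_left _ (Finset.mem_sdiff.2 ⟨hAT hz, hzD⟩)
      have h2 := Finset.card_le_card h1
      have h3 := Finset.card_union_le ((A' + Hf) \ D) (Ii.image (red l))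
      have h4 : (Ii.image (red l)).card ≤ Ii.card := Finset.card_image_le
      have h5 := Finset.card_sdiff_add_card_eq_card hDsub
      omega
    have hBjc : B'.card + Hf.card ≤ (B' + Hf).card + Bj.card := by
      set D := ({red l j} : Finset (ZMod l)) + Hf with hD
      have hmemD : ∀ z, z ∈ D ↔ z - red l j ∈ H := by
        intro z
        rw [hD, Finset.mem_add]
        constructor
        · rintro ⟨p, hp, q, hq, rfl⟩
          rw [Finset.mem_singleton.1 hp]
          simpa using (hHf q).1 hq
        · intro hz
          exact ⟨red l j, Finset.mem_singleton_self _, z - red l j, (hHf _).2 hz, by abel⟩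
      have hDcard : D.card = Hf.card := by
        rw [hD, Finset.singleton_add]
        simp
      have hDsub : D ⊆ B' + Hf := by
        apply Finset.add_subset_add_right
        rw [Finset.singleton_subset_iff]
        exact Finset.mem_image_of_mem _ hj
      have h1 : B' ⊆ ((B' + Hf) \ D) ∪ Bj.image (red l) := by
        intro z hz
        by_cases hzD : z ∈ D
        · refine Finset.mem_union_right _ ?_
          obtain ⟨x, hx, rfl⟩ := Finset.mem_image.1 hz
          exact Finset.mem_image_of_mem _ (Finset.mem_filter.2 ⟨hx, (hmemD _).1 hzD⟩)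
        · exact Finset.mem_union_left _ (Finset.mem_sdiff.2 ⟨hBT hz, hzD⟩)
      have h2 := Finset.card_le_card h1
      have h3 := Finset.card_union_le ((B' + Hf) \ D) (Bj.image (red l))
      have h4 : (Bj.image (red l)).card ≤ Bj.card := Finset.card_image_le
      have h5 := Finset.card_sdiff_add_card_eq_card hDsub
      omega
    rw [← hHfcard] at hk
    rw [← hT] at hBjc
    omega

/-- Number of classes of a subset of `[0, l]` containing both ends. -/
theorem card_red_interval (l : ℕ) (I : Finset ℤ) (hI : ∀ x ∈ I, 0 ≤ x ∧ x ≤ (l : ℤ)) :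
    I.card ≤ (I.image (red l)).card + 1 := by
  classical
  have hinj : Set.InjOn (red l) (I.erase (l : ℤ) : Finset ℤ) := by
    intro x hx y hy hxy
    have hx1 := Finset.mem_erase.1 (Finset.mem_coe.1 hx)
    have hy1 := Finset.mem_erase.1 (Finset.mem_coe.1 hy)
    have hx2 := hI x hx1.2
    have hy2 := hI y hy1.2
    have hxl : x < l := lt_of_le_of_ne hx2.2 hx1.1
    have hyl : y < l := lt_of_le_of_ne hy2.2 hy1.1
    obtain ⟨k, hk⟩ := (red_eq_iff l x y).1 hxy
    have hk0 : k = 0 := by
      by_contra hne
      rcases lt_or_gt_of_ne hne with h | h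
      · have : (l : ℤ) * k ≤ (l : ℤ) * (-1) := by
          apply mul_le_mul_of_nonneg_left _ (by positivity)
          omega
        linarith
      · have : (l : ℤ) * 1 ≤ (l : ℤ) * k := by
          apply mul_le_mul_of_nonneg_left _ (by positivity)
          omega
        linarith
    rw [hk0] at hk
    linarith
  have h1 : (I.erase (l : ℤ)).card = ((I.erase (l : ℤ)).image (red l)).card :=
    (Finset.card_image_of_injOn hinj).symm
  have h2 : ((I.erase (l : ℤ)).image (red l)).card ≤ (I.image (red l)).card :=
    Finset.card_le_card (Finset.image_subset_image (Finset.erase_subset _ _))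
  have h3 := Finset.pred_card_le_card_erase (s := I) (a := (l : ℤ))
  omega

/-- A finite set in an interval of length less than `l` has as many classes as elements. -/
theorem card_red_short (l : ℕ) (B : Finset ℤ) (hB : ∀ x ∈ B, ∀ y ∈ B, y - x < (l : ℤ)) :
    B.card = (B.image (red l)).card := by
  classical
  symm
  apply Finset.card_image_of_injOn
  intro x hx y hy hxy
  have hx1 := Finset.mem_coe.1 hx
  have hy1 := Finset.mem_coe.1 hy
  have h1 := hB x hx1 y hy1
  have h2 := hB y hy1 x hx1
  obtain ⟨k, hk⟩ := (red_eq_iff l x y).1 hxy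
  have hk0 : k = 0 := by
    by_contra hne
    rcases lt_or_gt_of_ne hne with h | h
    · have : (l : ℤ) * k ≤ (l : ℤ) * (-1) := by
        apply mul_le_mul_of_nonneg_left _ (by positivity)
        omega
      linarith
    · have : (l : ℤ) * 1 ≤ (l : ℤ) * k := by
        apply mul_le_mul_of_nonneg_left _ (by positivity)
        omega
      linarith
  rw [hk0] at hk
  linarith

/-- A finite set in an interval of length at most `l` has at most one class fewer. -/
theorem card_red_long (l : ℕ) (B : Finset ℤ) (hB : ∀ x ∈ B, ∀ y ∈ B, y - x ≤ (l : ℤ)) :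
    B.card ≤ (B.image (red l)).card + 1 := by
  classical
  rcases B.eq_empty_or_nonempty with rfl | hne
  · simp
  · have hm := B.min'_mem hne
    have h1 : ((B.erase (B.min' hne)).image (red l)).card = (B.erase (B.min' hne)).card := by
      refine (card_red_short l _ ?_).symm
      intro x hx y hy
      have hx1 := Finset.mem_erase.1 hx
      have hy1 := Finset.mem_erase.1 hy
      have h2 := B.min'_le x hx1.2
      have h3 : B.min' hne < x := lt_of_le_of_ne h2 (Ne.symm hx1.1)
      have h4 := hB _ hm y hy1.2
      linarith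
    have h2 : ((B.erase (B.min' hne)).image (red l)).card ≤ (B.image (red l)).card :=
      Finset.card_le_card (Finset.image_subset_image (Finset.erase_subset _ _))
    have h3 := Finset.pred_card_le_card_erase (s := B) (a := B.min' hne)
    omega

/-- The bound for a second set in an interval of length less than `l`. -/
theorem fls_short (l : ℕ) (hl : 0 < l) (I B : Finset ℤ) (hB : B.Nonempty)
    (h0 : (0 : ℤ) ∈ I) (hlI : (l : ℤ) ∈ I) (hI : ∀ x ∈ I, 0 ≤ x ∧ x ≤ (l : ℤ))
    (hgcd : ∀ d : ℕ, (∀ x ∈ I, (d : ℤ) ∣ x) → d = 1)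
    (hspan : ∀ x ∈ B, ∀ y ∈ B, y - x < (l : ℤ)) :
    l + B.card ≤ (I + B).card ∨ 2 * B.card + I.card ≤ (I + B).card + 2 := by
  rcases fls_core l hl I B hB h0 hlI hgcd with h | h
  · exact Or.inl h
  · right
    have h1 := card_red_interval l I hI
    have h2 := card_red_short l B hspan
    omega

/-- The bound for a second set in an interval of length at most `l`. -/
theorem fls_long (l : ℕ) (hl : 0 < l) (I B : Finset ℤ) (hB : B.Nonempty)
    (h0 : (0 : ℤ) ∈ I) (hlI : (l : ℤ) ∈ I) (hI : ∀ x ∈ I, 0 ≤ x ∧ x ≤ (l : ℤ))
    (hgcd : ∀ d : ℕ, (∀ x ∈ I, (d : ℤ) ∣ x) → d = 1)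
    (hspan : ∀ x ∈ B, ∀ y ∈ B, y - x ≤ (l : ℤ)) :
    l + B.card ≤ (I + B).card ∨ 2 * B.card + I.card ≤ (I + B).card + 3 := by
  rcases fls_core l hl I B hB h0 hlI hgcd with h | h
  · exact Or.inl h
  · right
    have h1 := card_red_interval l I hI
    have h2 := card_red_long l B hspan
    omega

end Pool.Agent.H96.FLS
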