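import Mathlib
import Pool.Agent.H71M.Setup
import Pool.Agent.H96.FLS

/-!
Definitions for the proof that the sum-free sets with least element `p` in the plateau have at most
`2 p` elements (shared with `Pool.Agent.H71M`).
-/

open Finset
open scoped Pointwise

namespace MinEven

/-- the elements of `A` congruent to `c` modulo `D` -/
def cl (D c : ℤ) (A : Finset ℤ) : Finset ℤ := A.filter (fun x => D ∣ x - c)

theorem mem_cl {D c x : ℤ} {A : Finset ℤ} : x ∈ cl D c A ↔ x ∈ A ∧ D ∣ x - c := by
  unfold cl; rw [mem_filter]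

/-- `D` is the gcd of `I` and `D * lam` its maximum -/
structure Gen (I : Finset ℤ) (D lam : ℤ) : Prop where
  D0 : 0 < D
  lam0 : 0 < lam
  zero : 0 ∈ I
  top : D * lam ∈ I
  rng : ∀ x ∈ I, 0 ≤ x ∧ x ≤ D * lam
  div : ∀ x ∈ I, D ∣ x
  gcd : ∀ g : ℤ, (∀ x ∈ I, g ∣ x) → g ∣ D

/-- the part of `C` in the upper zone `[p - d, p - d + D lam)` -/
noncomputable def sC' (S : Finset ℤ) (p d D lam : ℤ) : Finset ℤ :=
  (sC S p d).filter (fun w => w < p - d + D * lam)

/-- the part of `K` in the lower zone `[p - d - D lam, p - d)` -/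
noncomputable def sK' (S : Finset ℤ) (p d D lam : ℤ) : Finset ℤ :=
  (sK S p d).filter (fun w => p - d - D * lam ≤ w)

end MinEven
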