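import Mathlib
import Pool.Agent.H96.MEDefs

/-!
The sumset bound for a set with greatest common divisor `D` and maximum `D * lam`.
-/

open Finset
open scoped Pointwise

namespace MinEven

theorem Gen.fls_add {I : Finset ℤ} {D lam : ℤ} (g : Gen I D lam) (B : Finset ℤ)
    (hB : B.Nonempty) (hBc : ∀ x ∈ B, ∀ y ∈ B, D ∣ y - x)
    (hspan : ∀ x ∈ B, ∀ y ∈ B, y - x < D * lam) :
    (B.card : ℤ) + lam ≤ (B + I).card ∨ 2 * B.card + I.card ≤ (B + I).card + 2 := by
  classical
  have hD := g.D0
  have hD0 : D ≠ 0 := hD.ne'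
  have hlam := g.lam0
  obtain ⟨b0, hb0⟩ := hB
  -- division by `D`
  set J := I.image (fun x => x / D) with hJ
  set B' := B.image (fun x => (x - b0) / D) with hB'
  have hJmem : ∀ j : ℤ, j ∈ J ↔ D * j ∈ I := by
    intro j
    rw [hJ, mem_image]
    constructor
    · rintro ⟨x, hx, rfl⟩
      rwa [Int.mul_ediv_cancel' (g.div x hx)]
    · intro h
      exact ⟨D * j, h, Int.mul_ediv_cancel_left j hD0⟩
  have hBmem : ∀ j : ℤ, j ∈ B' ↔ b0 + D * j ∈ B := by
    intro j
    rw [hB', mem_image]
    constructor
    · rintro ⟨x, hx, rfl⟩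
      rw [Int.mul_ediv_cancel' (hBc b0 hb0 x hx)]
      have e : b0 + (x - b0) = x := by ring
      rwa [e]
    · intro h
      refine ⟨b0 + D * j, h, ?_⟩
      have e : b0 + D * j - b0 = D * j := by ring
      simp only [e]
      exact Int.mul_ediv_cancel_left j hD0
  have hJcard : J.card = I.card := by
    apply card_image_of_injOn
    intro x hx y hy hxy
    have h1 := Int.mul_ediv_cancel' (g.div x hx)
    have h2 := Int.mul_ediv_cancel' (g.div y hy)
    have h3 : x / D = y / D := hxy
    rw [← h1, ← h2, h3]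
  have hBcard : B'.card = B.card := by
    apply card_image_of_injOn
    intro x hx y hy hxy
    have h1 := Int.mul_ediv_cancel' (hBc b0 hb0 x hx)
    have h2 := Int.mul_ediv_cancel' (hBc b0 hb0 y hy)
    have h3 : (x - b0) / D = (y - b0) / D := hxy
    have h4 : x - b0 = y - b0 := by rw [← h1, ← h2, h3]
    linarith
  have hsum : (J + B').card = (B + I).card := by
    have h : B + I = (J + B').image (fun z => b0 + D * z) := by
      ext z
      rw [mem_image]
      constructor
      · intro hz
        obtain ⟨x, hx, y, hy, rfl⟩ := mem_add.1 hz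
        obtain ⟨u, hu⟩ := hBc b0 hb0 x hx
        obtain ⟨v, hv⟩ := g.div y hy
        refine ⟨v + u, add_mem_add ((hJmem v).2 (by rw [← hv]; exact hy)) ((hBmem u).2 ?_), ?_⟩
        · rw [← hu]
          have e : b0 + (x - b0) = x := by ring
          rwa [e]
        · rw [mul_add, ← hu, ← hv]
          ring
      · rintro ⟨w, hw, rfl⟩
        obtain ⟨v, hv, u, hu, rfl⟩ := mem_add.1 hw
        have e : b0 + D * (v + u) = (b0 + D * u) + D * v := by ring
        simp only [e]
        exact add_mem_add ((hBmem u).1 hu) ((hJmem v).1 hv)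
    rw [h, card_image_of_injective]
    intro a b hab
    have h1 : D * a = D * b := by
      have h2 : b0 + D * a = b0 + D * b := hab
      linarith
    exact mul_left_cancel₀ hD0 h1
  have hlc : ((lam.toNat : ℕ) : ℤ) = lam := Int.toNat_of_nonneg hlam.le
  have hne : B'.Nonempty := ⟨0, (hBmem 0).2 (by simpa using hb0)⟩
  have h := Pool.Agent.H96.FLS.fls_short lam.toNat (by omega) J B' hne
    ((hJmem 0).2 (by simpa using g.zero)) (by rw [hlc]; exact (hJmem lam).2 g.top)
    (by
      intro x hx
      rw [hlc]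
      have h1 := g.rng _ ((hJmem x).1 hx)
      constructor
      · by_contra h2
        have h3 : D * x < 0 := mul_neg_of_pos_of_neg hD (by omega)
        omega
      · exact le_of_mul_le_mul_left h1.2 hD)
    (by
      intro e he
      have h1 : ∀ x ∈ I, D * (e : ℤ) ∣ x := by
        intro x hx
        obtain ⟨v, hv⟩ := g.div x hx
        rw [hv]
        exact mul_dvd_mul_left D (he v ((hJmem v).2 (by rw [← hv]; exact hx)))
      have h2 := g.gcd _ h1
      have h3 : (e : ℤ) ∣ 1 := by
        obtain ⟨c, hc⟩ := h2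
        refine ⟨c, ?_⟩
        have h4 : D * (e * c) = D * 1 := by rw [← mul_assoc, ← hc, mul_one]
        exact (mul_left_cancel₀ hD0 h4).symm
      have h4 := Int.natAbs_dvd_natAbs.2 h3
      simpa using h4)
    (by
      intro x hx y hy
      rw [hlc]
      have h1 := hspan _ ((hBmem x).1 hx) _ ((hBmem y).1 hy)
      have h2 : D * (y - x) < D * lam := by
        have e : b0 + D * y - (b0 + D * x) = D * (y - x) := by ring
        rwa [e] at h1
      exact lt_of_mul_lt_mul_left h2 hD.le)
  rw [hsum, hJcard, hBcard] at h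
  rcases h with h | h
  · left
    omega
  · right
    exact h

theorem Gen.reflect {I : Finset ℤ} {D lam : ℤ} (g : Gen I D lam) :
    Gen (I.image (fun x => D * lam - x)) D lam := by
  classical
  refine ⟨g.D0, g.lam0, ?_, ?_, ?_, ?_, ?_⟩
  · rw [mem_image]; exact ⟨_, g.top, by ring⟩
  · rw [mem_image]; exact ⟨_, g.zero, by ring⟩
  · intro x hx
    rw [mem_image] at hx
    obtain ⟨y, hy, rfl⟩ := hx
    have := g.rng y hy
    constructor <;> linarith
  · intro x hx
    rw [mem_image] at hx
    obtain ⟨y, hy, rfl⟩ := hx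
    exact dvd_sub (dvd_mul_right _ _) (g.div y hy)
  · intro e he
    apply g.gcd
    intro x hx
    have h1 : e ∣ D * lam := by
      have := he (D * lam - 0) (mem_image.2 ⟨0, g.zero, rfl⟩)
      rwa [sub_zero] at this
    have h2 := he (D * lam - x) (mem_image.2 ⟨x, hx, rfl⟩)
    have h3 := dvd_sub h1 h2
    have e1 : D * lam - (D * lam - x) = x := by ring
    rwa [e1] at h3

theorem Gen.fls_sub {I : Finset ℤ} {D lam : ℤ} (g : Gen I D lam) (B : Finset ℤ)
    (hB : B.Nonempty) (hBc : ∀ x ∈ B, ∀ y ∈ B, D ∣ y - x)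
    (hspan : ∀ x ∈ B, ∀ y ∈ B, y - x < D * lam) :
    (B.card : ℤ) + lam ≤ (B - I).card ∨ 2 * B.card + I.card ≤ (B - I).card + 2 := by
  classical
  have h := g.reflect.fls_add B hB hBc hspan
  have h1 : (I.image (fun x => D * lam - x)).card = I.card := by
    apply card_image_of_injective
    intro a b hab
    have : D * lam - a = D * lam - b := hab
    linarith
  have h2 : (B + I.image (fun x => D * lam - x)).card = (B - I).card := by
    have e : B + I.image (fun x => D * lam - x) = (B - I).image (fun z => z + D * lam) := by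
      ext z
      rw [mem_image]
      constructor
      · intro hz
        obtain ⟨x, hx, y, hy, rfl⟩ := mem_add.1 hz
        rw [mem_image] at hy
        obtain ⟨w, hw, rfl⟩ := hy
        exact ⟨x - w, sub_mem_sub hx hw, by ring⟩
      · rintro ⟨w, hw, rfl⟩
        obtain ⟨x, hx, y, hy, rfl⟩ := mem_sub.1 hw
        have e : x - y + D * lam = x + (D * lam - y) := by ring
        rw [e]
        exact add_mem_add hx (mem_image_of_mem _ hy)
    rw [e, card_image_of_injective]
    intro a b hab
    have : a + D * lam = b + D * lam := hab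
    linarith
  rw [h1, h2] at h
  exact h

/-- existence of `D` and `lam` -/
theorem Cfg.gen_exists {S : Finset ℤ} {p d : ℤ} (h : Cfg S p d) :
    ∃ D lam : ℤ, Gen (sI S p) D lam := by
  classical
  have hd := h.hd
  have hb := h.budget1
  have hcard : 1 < (sI S p).card := by
    have : (0 : ℤ) ≤ (sD S p d).card := by positivity
    omega
  have hzero := h.zero_I
  have hne : (sI S p).Nonempty := ⟨0, hzero⟩
  set m := (sI S p).max' hne with hm
  have hmI : m ∈ sI S p := (sI S p).max'_mem hne
  have hrng : ∀ x ∈ sI S p, 0 ≤ x ∧ x ≤ m := by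
    intro x hx
    refine ⟨?_, (sI S p).le_max' x hx⟩
    rw [mem_sI] at hx
    exact hx.1.1
  have hm0 : 0 < m := by
    obtain ⟨y, hy, hy0⟩ := exists_mem_ne hcard 0
    have := hrng y hy
    omega
  set D : ℤ := (sI S p).gcd id with hD
  have hdiv : ∀ x ∈ sI S p, D ∣ x := fun x hx => Finset.gcd_dvd (f := id) hx
  have hgcd : ∀ g : ℤ, (∀ x ∈ sI S p, g ∣ x) → g ∣ D := fun g hg => Finset.dvd_gcd hg
  have hDne : D ≠ 0 := by
    intro h0
    have := hdiv m hmI
    rw [h0, zero_dvd_iff] at this
    omega
  have hDn : 0 ≤ D := by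
    have h1 : normalize D = D := by rw [hD]; exact Finset.normalize_gcd
    exact Int.nonneg_of_normalize_eq_self h1
  have hD0 : 0 < D := lt_of_le_of_ne hDn (Ne.symm hDne)
  obtain ⟨lam, hlam⟩ := hdiv m hmI
  refine ⟨D, lam, hD0, ?_, hzero, ?_, ?_, hdiv, hgcd⟩
  · by_contra hle
    have : D * lam ≤ 0 := mul_nonpos_of_nonneg_of_nonpos hDn (by omega)
    omega
  · rw [← hlam]; exact hmI
  · rw [← hlam]; exact hrng

end MinEven
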