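import Mathlib
import Pool.Agent.H96.MEGenA

/-!
Accounting of the elements of a sum-free set.
-/

open Finset
open scoped Pointwise

namespace MinEven

/-- reflection for two sets -/
theorem cnt_refl2 (X Y : Finset ℤ) (s : ℤ) (h : ∀ w ∈ X, s - w ∉ Y) (a b : ℤ) (hab : a ≤ b) :
    (cnt X a b : ℤ) + cnt Y (s - b + 1) (s - a + 1) ≤ b - a := by
  classical
  have h := card_add_le_of_disjoint (X.filter (fun x => a ≤ x ∧ x < b))
    ((Y.filter (fun x => s - b + 1 ≤ x ∧ x < s - a + 1)).image (fun x => s - x)) a b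
    (by omega) (by intro x hx; rw [mem_filter] at hx; exact hx.2)
    (by
      intro x hx
      rw [mem_image] at hx
      obtain ⟨y, hy, rfl⟩ := hx
      rw [mem_filter] at hy
      omega)
    (by
      intro x hx hx'
      rw [mem_image] at hx'
      obtain ⟨y, hy, rfl⟩ := hx'
      rw [mem_filter] at hy hx
      apply h _ hx.1
      have he : s - (s - y) = y := by ring
      rw [he]; exact hy.1)
  rw [card_image_of_injective _ (fun x y h => by simpa using h)] at h
  unfold cnt
  omega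

theorem cnt_disj (X Y : Finset ℤ) (h : ∀ w ∈ X, w ∉ Y) (a b : ℤ) (hab : a ≤ b) :
    (cnt X a b : ℤ) + cnt Y a b ≤ b - a := by
  classical
  exact card_add_le_of_disjoint (X.filter (fun x => a ≤ x ∧ x < b))
    (Y.filter (fun x => a ≤ x ∧ x < b)) a b hab
    (by intro x hx; rw [mem_filter] at hx; exact hx.2)
    (by intro x hx; rw [mem_filter] at hx; exact hx.2)
    (by
      intro x hx hx'
      exact h x (mem_filter.1 hx).1 (mem_filter.1 hx').1)

open Classical in
/-- positions in `[a, b)` with class in `A` -/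
noncomputable def NA (A : Finset ℤ) (D a b : ℤ) : Finset ℤ :=
  (Finset.Ico a b).filter (fun x => ∃ c ∈ A, D ∣ x - c)

theorem mem_NA {A : Finset ℤ} {D a b x : ℤ} :
    x ∈ NA A D a b ↔ (a ≤ x ∧ x < b) ∧ ∃ c ∈ A, D ∣ x - c := by
  unfold NA; rw [mem_filter, Finset.mem_Ico]

theorem NA_card_le (A : Finset ℤ) {D lam : ℤ} (hD : 0 < D) (hlam : 0 < lam) (a : ℤ) :
    ((NA A D a (a + D * lam)).card : ℤ) ≤ lam * A.card := by
  classical
  have hDl : 0 < D * lam := mul_pos hD hlam
  have h1 : NA A D a (a + D * lam) ⊆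
      A.biUnion (fun c => (Finset.Ico a (a + D * lam)).filter (fun x => D ∣ x - c)) := by
    intro x hx
    rw [mem_NA] at hx
    obtain ⟨h1, c, hc, h2⟩ := hx
    rw [mem_biUnion]
    exact ⟨c, hc, mem_filter.2 ⟨Finset.mem_Ico.2 h1, h2⟩⟩
  have h2 := (card_le_card h1).trans card_biUnion_le
  have h3 : ∀ c ∈ A, ((Finset.Ico a (a + D * lam)).filter (fun x => D ∣ x - c)).card
      ≤ lam.toNat := by
    intro c _
    have h4 := class_card_le ((Finset.Ico a (a + D * lam)).filter (fun x => D ∣ x - c)) a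
      (a + D * lam) c D hD
      (fun x hx => Finset.mem_Ico.1 (mem_filter.1 hx).1) (fun x hx => (mem_filter.1 hx).2)
      (by omega)
    have h5 : D * (((Finset.Ico a (a + D * lam)).filter (fun x => D ∣ x - c)).card : ℤ)
        < D * (lam + 1) := by
      have e : D * (lam + 1) = D * lam + D := by ring
      rw [e]
      omega
    have h6 := lt_of_mul_lt_mul_left h5 hD.le
    omega
  have h4 := sum_le_card_nsmul A _ _ h3
  have h5 : (NA A D a (a + D * lam)).card ≤ A.card * lam.toNat := by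
    have := h2.trans h4
    simpa using this
  have h6 : ((NA A D a (a + D * lam)).card : ℤ) ≤ (A.card : ℤ) * lam.toNat := by
    exact_mod_cast h5
  rw [Int.toNat_of_nonneg hlam.le] at h6
  linarith

theorem mem_sC' {S : Finset ℤ} {p d D lam w : ℤ} :
    w ∈ sC' S p d D lam ↔ w ∈ sC S p d ∧ w < p - d + D * lam := by
  unfold sC'; rw [mem_filter]

/-- the sum over the classes -/
theorem sum_classes {S : Finset ℤ} {p d D lam : ℤ} (g : Gen (sI S p) D lam) (A : Finset ℤ)
    (hA : ∀ c ∈ A, 0 ≤ c ∧ c < D)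
    (hCA : ∀ w ∈ sC S p d, ∃ c ∈ A, D ∣ w - c)
    (hC : ∀ c ∈ A, ((cl D c (sC' S p d D lam)).card : ℤ) + lam
      ≤ (cl D c (sC' S p d D lam) - sI S p).card) :
    ((sC' S p d D lam).card : ℤ) + lam * A.card ≤ (sC' S p d D lam - sI S p).card := by
  classical
  set X := sC' S p d D lam with hX
  have huniq : ∀ c ∈ A, ∀ c' ∈ A, ∀ x, D ∣ x - c → D ∣ x - c' → c = c' := by
    intro c hc c' hc' x h1 h2
    have h3 := dvd_sub h1 h2
    have e : x - c - (x - c') = c' - c := by ring
    rw [e] at h3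
    have h4 := hA c hc
    have h5 := hA c' hc'
    have h6 : |c' - c| < D := by rw [abs_lt]; omega
    have h7 := Int.eq_zero_of_abs_lt_dvd h3 h6
    omega
  have h1 : X = A.biUnion (fun c => cl D c X) := by
    ext x
    rw [mem_biUnion]
    constructor
    · intro hx
      obtain ⟨c, hc, hd⟩ := hCA x (mem_sC'.1 hx).1
      exact ⟨c, hc, mem_cl.2 ⟨hx, hd⟩⟩
    · rintro ⟨c, hc, hx⟩
      exact (mem_cl.1 hx).1
  have h2 : X.card = ∑ c ∈ A, (cl D c X).card := by
    conv_lhs => rw [h1]
    apply card_biUnion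
    intro c hc c' hc' hne
    rw [Function.onFun, disjoint_left]
    intro x hx hx'
    exact hne (huniq c hc c' hc' x (mem_cl.1 hx).2 (mem_cl.1 hx').2)
  have h3 : A.biUnion (fun c => cl D c X - sI S p) ⊆ X - sI S p := by
    intro x hx
    rw [mem_biUnion] at hx
    obtain ⟨c, hc, hx⟩ := hx
    obtain ⟨y, hy, z, hz, rfl⟩ := mem_sub.1 hx
    exact sub_mem_sub (mem_cl.1 hy).1 hz
  have h4 : (A.biUnion (fun c => cl D c X - sI S p)).card = ∑ c ∈ A, (cl D c X - sI S p).card := by
    apply card_biUnion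
    intro c hc c' hc' hne
    rw [Function.onFun, disjoint_left]
    intro x hx hx'
    obtain ⟨y, hy, z, hz, rfl⟩ := mem_sub.1 hx
    obtain ⟨y', hy', z', hz', he⟩ := mem_sub.1 hx'
    apply hne
    apply huniq c hc c' hc' y (mem_cl.1 hy).2
    have e : y - c' = (y' - c') - z' + z := by linarith
    rw [e]
    exact dvd_add (dvd_sub (mem_cl.1 hy').2 (g.div z' hz')) (g.div z hz)
  have h5 := card_le_card h3
  rw [h4] at h5
  have h6 : ∑ c ∈ A, (((cl D c X).card : ℤ) + lam) ≤ ∑ c ∈ A, ((cl D c X - sI S p).card : ℤ) :=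
    sum_le_sum hC
  rw [sum_add_distrib, sum_const, nsmul_eq_mul] at h6
  have h7 : ((∑ c ∈ A, (cl D c X).card : ℕ) : ℤ) = ∑ c ∈ A, ((cl D c X).card : ℤ) := by
    push_cast; rfl
  have h8 : ((∑ c ∈ A, (cl D c X - sI S p).card : ℕ) : ℤ) =
      ∑ c ∈ A, ((cl D c X - sI S p).card : ℤ) := by
    push_cast; rfl
  have h9 : ((∑ c ∈ A, (cl D c X - sI S p).card : ℕ) : ℤ) ≤ (X - sI S p).card := by
    exact_mod_cast h5
  rw [h2, h7]
  rw [h8] at h9
  have e : lam * (A.card : ℤ) = (A.card : ℤ) * lam := by ring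
  rw [e]
  exact h6.trans h9

namespace Cfg

variable {S : Finset ℤ} {p d : ℤ}

theorem cI (_h : Cfg S p d) : (sI S p).card = cnt (sI S p) 0 p :=
  card_eq_cnt' _ _ _ (fun x hx => (mem_sI.1 hx).1.1) (fun x hx => (mem_sI.1 hx).1.2)

theorem cK (_h : Cfg S p d) : (sK S p d).card = cnt (sK S p d) 0 (p - d) :=
  card_eq_cnt' _ _ _ (fun x hx => (mem_sK.1 hx).1.1) (fun x hx => (mem_sK.1 hx).1.2)

theorem cR (_h : Cfg S p d) : (sR S p d).card = cnt (sR S p d) (-d) (2 * p - d) :=
  card_eq_cnt' _ _ _ (fun x hx => (mem_sR.1 hx).1.1) (fun x hx => (mem_sR.1 hx).1.2)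

theorem cC (_h : Cfg S p d) : (sC S p d).card = cnt (sC S p d) (p - d) (2 * p - d) :=
  card_eq_cnt' _ _ _ (fun x hx => (mem_sC.1 hx).1.1) (fun x hx => (mem_sC.1 hx).1.2)

theorem cC' (_h : Cfg S p d) (D lam : ℤ) :
    (sC' S p d D lam).card = cnt (sC S p d) (p - d) (p - d + D * lam) := by
  unfold sC' cnt
  congr 1
  ext x
  rw [mem_filter, mem_filter]
  constructor
  · rintro ⟨h1, h2⟩
    exact ⟨h1, (mem_sC.1 h1).1.1, h2⟩
  · rintro ⟨h1, h2, h3⟩
    exact ⟨h1, h3⟩

theorem top_lt (_h : Cfg S p d) {D lam : ℤ} (g : Gen (sI S p) D lam) : D * lam < p :=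
  (mem_sI.1 g.top).1.2

/-- the differences lie in the zone -/
theorem sub_zone (_h : Cfg S p d) {D lam : ℤ} (g : Gen (sI S p) D lam) :
    ∀ x ∈ sC' S p d D lam - sI S p, p - d - D * lam ≤ x ∧ x < p - d + D * lam := by
  intro x hx
  obtain ⟨y, hy, z, hz, rfl⟩ := mem_sub.1 hx
  have h1 := mem_sC'.1 hy
  have h2 := (mem_sC.1 h1.1).1
  have h3 := g.rng z hz
  constructor <;> omega

/-- and avoid `R` -/
theorem sub_R (h : Cfg S p d) {D lam : ℤ} :
    ∀ x ∈ sC' S p d D lam - sI S p, x ∉ sR S p d := by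
  intro x hx
  obtain ⟨y, hy, z, hz, rfl⟩ := mem_sub.1 hx
  exact h.CI (mem_sC'.1 hy).1 hz

/-- the last blocks -/
theorem upper (h : Cfg S p d) (l : ℤ) (hl : l ≤ p) :
    (cnt (sR S p d) (p - d + l) (2 * p - d) : ℤ) + cnt (sC S p d) (p - d + l) (2 * p - d)
      ≤ p - l := by
  have := cnt_disj (sC S p d) (sR S p d) (fun w hw => h.CR hw) (p - d + l) (2 * p - d) (by omega)
  omega

/-- the negative part of `R` -/
theorem negR (h : Cfg S p d) : 2 * (cnt (sR S p d) (-d) 0 : ℤ) ≤ d := by
  have hd := h.hd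
  have h1 := cnt_refl2 (sR S p d) (sR S p d) (-d - 1) (fun w hw => h.reflRR hw) (-d) 0 (by omega)
  have e1 : -d - 1 - 0 + 1 = -d := by ring
  have e2 : -d - 1 - -d + 1 = 0 := by ring
  rw [e1, e2] at h1
  omega

/-- the window of the zone -/
theorem zone_count (h : Cfg S p d) {D lam : ℤ} (g : Gen (sI S p) D lam) :
    (cnt (sR S p d) (p - d - D * lam) (p - d + D * lam) : ℤ)
      + (sC' S p d D lam - sI S p).card ≤ 2 * (D * lam) := by
  classical
  have hl : 0 < D * lam := mul_pos g.D0 g.lam0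
  have h1 := card_add_le_of_disjoint
    ((sR S p d).filter (fun x => p - d - D * lam ≤ x ∧ x < p - d + D * lam))
    (sC' S p d D lam - sI S p) (p - d - D * lam) (p - d + D * lam) (by omega)
    (fun x hx => (mem_filter.1 hx).2) (h.sub_zone g)
    (fun x hx hx' => h.sub_R x hx' (mem_filter.1 hx).1)
  unfold cnt
  omega

/-- accounting, case `D * lam ≤ p - d` -/
theorem accounting_le (h : Cfg S p d) {D lam : ℤ}
    (g : Gen (sI S p) D lam) (A : Finset ℤ) (h0 : 0 ∈ A)
    (hK : ∀ w ∈ sK S p d, ∃ c ∈ A, D ∣ w - c)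
    (hsum : ((sC' S p d D lam).card : ℤ) + lam * A.card ≤ (sC' S p d D lam - sI S p).card)
    (hle : D * lam ≤ p - d) : False := by
  classical
  have hd := h.hd
  have hdp := h.hdp
  have hbig := h.big
  have hD := g.D0
  have hl : 0 < D * lam := mul_pos g.D0 g.lam0
  have hlp := h.top_lt g
  set l := D * lam with hldef
  have hz := h.zone_count g
  rw [← hldef] at hz
  -- (1)
  have h1 : (cnt (sI S p) 0 l : ℤ) + cnt (sK S p d) 0 l ≤ lam * A.card := by
    have hN := NA_card_le A g.D0 g.lam0 0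
    rw [zero_add] at hN
    have hd1 : Disjoint ((sI S p).filter (fun x => 0 ≤ x ∧ x < l))
        ((sK S p d).filter (fun x => 0 ≤ x ∧ x < l)) := by
      rw [disjoint_left]
      intro x hx hx'
      exact h.IK (mem_filter.1 hx).1 (mem_filter.1 hx').1
    have hsub : ((sI S p).filter (fun x => 0 ≤ x ∧ x < l)) ∪
        ((sK S p d).filter (fun x => 0 ≤ x ∧ x < l)) ⊆ NA A D 0 (D * lam) := by
      intro x hx
      rw [mem_NA]
      rcases mem_union.1 hx with hx | hx
      · refine ⟨(mem_filter.1 hx).2, 0, h0, ?_⟩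
        rw [sub_zero]; exact g.div x (mem_filter.1 hx).1
      · exact ⟨(mem_filter.1 hx).2, hK x (mem_filter.1 hx).1⟩
    have hc := card_le_card hsub
    rw [card_union_of_disjoint hd1] at hc
    unfold cnt
    omega
  have hI : ((sI S p).card : ℤ) ≤ cnt (sI S p) 0 l + 1 := by
    have e1 := h.cI
    have e2 := cnt_add (sI S p) 0 l p (by omega) (by omega)
    have e3 : cnt (sI S p) l p ≤ 1 := by
      unfold cnt
      apply card_le_one.2
      intro a ha b hb
      have ha1 := (g.rng a (mem_filter.1 ha).1).2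
      have hb1 := (g.rng b (mem_filter.1 hb).1).2
      have ha2 := (mem_filter.1 ha).2.1
      have hb2 := (mem_filter.1 hb).2.1
      omega
    omega
  have h3 := cnt_refl2 (sK S p d) (sR S p d) (p - d - 1) (fun w hw => h.reflKR hw) l (p - d)
    (by omega)
  have e1 : p - d - 1 - (p - d) + 1 = 0 := by ring
  have e2 : p - d - 1 - l + 1 = p - d - l := by ring
  rw [e1, e2] at h3
  have h4 := h.upper l (by omega)
  have h5 := h.negR
  have hs := h.card_split
  have k1 := h.cK
  have k2 := cnt_add (sK S p d) 0 l (p - d) (by omega) (by omega)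
  have r1 := h.cR
  have r2 := cnt_add (sR S p d) (-d) 0 (2 * p - d) (by omega) (by omega)
  have r3 := cnt_add (sR S p d) 0 (p - d - l) (2 * p - d) (by omega) (by omega)
  have r4 := cnt_add (sR S p d) (p - d - l) (p - d + l) (2 * p - d) (by omega) (by omega)
  have c1 := h.cC
  have c2 := cnt_add (sC S p d) (p - d) (p - d + l) (2 * p - d) (by omega) (by omega)
  have c3 := h.cC' D lam
  rw [← hldef] at c3
  omega

/-- accounting, case `p - d < D * lam`, `D ≥ 2` -/
theorem accounting_gt (h : Cfg S p d) {D lam : ℤ}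
    (g : Gen (sI S p) D lam) (hD : 3 ≤ D ∨ (D = 2 ∧ 2 ∣ p)) (A : Finset ℤ) (h0 : 0 ∈ A)
    (hK : ∀ w ∈ sK S p d, ∃ c ∈ A, D ∣ w - c)
    (hCA : ∀ w ∈ sC S p d, ∃ c ∈ A, D ∣ w - c)
    (hsum : ((sC' S p d D lam).card : ℤ) + lam * A.card ≤ (sC' S p d D lam - sI S p).card)
    (hgt : p - d < D * lam) : False := by
  classical
  have hd := h.hd
  have hdp := h.hdp
  have hbig := h.big
  have hD0 := g.D0
  have hl : 0 < D * lam := mul_pos g.D0 g.lam0
  have hlp := h.top_lt g
  have hzone := h.sub_zone g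
  have hsubR := h.sub_R (D := D) (lam := lam)
  have hdvdl : D ∣ D * lam := dvd_mul_right _ _
  -- classes of the differences
  have hcls : ∀ x ∈ sC' S p d D lam - sI S p, ∃ c ∈ A, D ∣ x - c := by
    intro x hx
    obtain ⟨y, hy, z, hz, rfl⟩ := mem_sub.1 hx
    obtain ⟨c, hc, hd⟩ := hCA y (mem_sC'.1 hy).1
    refine ⟨c, hc, ?_⟩
    have e : y - z - c = (y - c) - z := by ring
    rw [e]
    exact dvd_sub hd (g.div z hz)
  have hN := NA_card_le A g.D0 g.lam0 (p - d - D * lam)
  have e0 : p - d - D * lam + D * lam = p - d := by ring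
  rw [e0] at hN
  set W := sC' S p d D lam - sI S p with hW
  have hC'c := h.cC' D lam
  set l := D * lam with hldef
  -- split of the set of positions
  have hNsplit : (NA A D (p - d - l) (p - d)).card =
      (NA A D (p - d - l) 0).card + (NA A D 0 (p - d)).card := by
    rw [← card_union_of_disjoint]
    · congr 1
      ext x
      rw [mem_union, mem_NA, mem_NA, mem_NA]
      constructor
      · rintro ⟨h1, h2⟩
        by_cases hx : x < 0
        · exact Or.inl ⟨⟨h1.1, hx⟩, h2⟩
        · exact Or.inr ⟨⟨by omega, h1.2⟩, h2⟩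
      · rintro (⟨h1, h2⟩ | ⟨h1, h2⟩)
        · exact ⟨⟨h1.1, by omega⟩, h2⟩
        · exact ⟨⟨by omega, h1.2⟩, h2⟩
    · rw [disjoint_left]
      intro x hx hx'
      rw [mem_NA] at hx hx'
      omega
  -- (1')
  have h1 : (cnt (sI S p) 0 (p - d) : ℤ) + (sK S p d).card ≤ (NA A D 0 (p - d)).card := by
    have hd1 : Disjoint ((sI S p).filter (fun x => 0 ≤ x ∧ x < p - d)) (sK S p d) := by
      rw [disjoint_left]
      intro x hx hx'
      exact h.IK (mem_filter.1 hx).1 hx'
    have hsub : ((sI S p).filter (fun x => 0 ≤ x ∧ x < p - d)) ∪ (sK S p d) ⊆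
        NA A D 0 (p - d) := by
      intro x hx
      rw [mem_NA]
      rcases mem_union.1 hx with hx | hx
      · refine ⟨(mem_filter.1 hx).2, 0, h0, ?_⟩
        rw [sub_zero]; exact g.div x (mem_filter.1 hx).1
      · exact ⟨(mem_sK.1 hx).1, hK x hx⟩
    have hc := card_le_card hsub
    rw [card_union_of_disjoint hd1] at hc
    unfold cnt
    omega
  have hI1 := h.cI
  have hI2 := cnt_add (sI S p) 0 (p - d) p (by omega) (by omega)
  have hI3 : D * (cnt (sI S p) (p - d) p : ℤ) ≤ l + 1 - (p - d) + D - 1 := by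
    have e : cnt (sI S p) (p - d) p = cnt (sI S p) (p - d) (l + 1) := by
      unfold cnt
      congr 1
      apply filter_congr
      intro x hx
      have := (g.rng x hx).2
      constructor
      · rintro ⟨h1, h2⟩; exact ⟨h1, by omega⟩
      · rintro ⟨h1, h2⟩; exact ⟨h1, by omega⟩
    rw [e]
    exact class_card_le _ (p - d) (l + 1) 0 D hD0 (fun x hx => (mem_filter.1 hx).2)
      (fun x hx => by rw [sub_zero]; exact g.div x (mem_filter.1 hx).1) (by omega)
  -- (2')
  have h2 : (cnt (sR S p d) 0 (p - d + l) : ℤ) + (W.filter (fun x => 0 ≤ x)).card ≤ p - d + l := by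
    have := card_add_le_of_disjoint ((sR S p d).filter (fun x => 0 ≤ x ∧ x < p - d + l))
      (W.filter (fun x => 0 ≤ x)) 0 (p - d + l) (by omega) (fun x hx => (mem_filter.1 hx).2)
      (fun x hx => ⟨(mem_filter.1 hx).2, (hzone x (mem_filter.1 hx).1).2⟩)
      (fun x hx hx' => hsubR x (mem_filter.1 hx').1 (mem_filter.1 hx).1)
    unfold cnt
    omega
  have h3 : (W.filter (fun x => ¬ 0 ≤ x)).card ≤ (NA A D (p - d - l) 0).card := by
    apply card_le_card
    intro x hx
    rw [mem_filter] at hx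
    rw [mem_NA]
    have := hzone x hx.1
    exact ⟨⟨by omega, by omega⟩, hcls x hx.1⟩
  have h4 := card_filter_add_card_filter_not (s := W) (fun x => 0 ≤ x)
  have h5 := h.upper l (by omega)
  have h6 := h.negR
  have hs := h.card_split
  have r1 := h.cR
  have r2 := cnt_add (sR S p d) (-d) 0 (2 * p - d) (by omega) (by omega)
  have r3 := cnt_add (sR S p d) 0 (p - d + l) (2 * p - d) (by omega) (by omega)
  have c1 := h.cC
  have c2 := cnt_add (sC S p d) (p - d) (p - d + l) (2 * p - d) (by omega) (by omega)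
  -- the number of multiples above
  have hm : 2 * (cnt (sI S p) (p - d) p : ℤ) ≤ d + 1 := by
    rcases hD with hD | ⟨hD, hp⟩
    · have h7 : 3 * (cnt (sI S p) (p - d) p : ℤ) - 3 ≤ D * (cnt (sI S p) (p - d) p : ℤ) - D := by
        rcases Nat.eq_zero_or_pos (cnt (sI S p) (p - d) p) with hz | hpos
        · exfalso
          have : l ∈ (sI S p).filter (fun x => p - d ≤ x ∧ x < p) :=
            mem_filter.2 ⟨g.top, by omega, by omega⟩
          have h8 := card_pos.2 ⟨l, this⟩
          unfold cnt at hz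
          omega
        · have h8 : (0 : ℤ) ≤ (D - 3) * ((cnt (sI S p) (p - d) p : ℤ) - 1) :=
            mul_nonneg (by omega) (by omega)
          have e : (D - 3) * ((cnt (sI S p) (p - d) p : ℤ) - 1) =
            D * (cnt (sI S p) (p - d) p : ℤ) - D - (3 * (cnt (sI S p) (p - d) p : ℤ) - 3) := by
            ring
          rw [e] at h8
          omega
      omega
    · subst hD
      omega
  omega

/-- UNIT B1 -/
theorem accounting (h : Cfg S p d) {D lam : ℤ}
    (g : Gen (sI S p) D lam) (hD : 3 ≤ D ∨ (D = 2 ∧ 2 ∣ p)) (A : Finset ℤ)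
    (hA : ∀ c ∈ A, 0 ≤ c ∧ c < D) (h0 : 0 ∈ A) (hK : ∀ w ∈ sK S p d, ∃ c ∈ A, D ∣ w - c)
    (hCA : ∀ w ∈ sC S p d, ∃ c ∈ A, D ∣ w - c)
    (hC : ∀ c ∈ A, ((cl D c (sC' S p d D lam)).card : ℤ) + lam
      ≤ (cl D c (sC' S p d D lam) - sI S p).card) : False := by
  have hsum := sum_classes g A hA hCA hC
  rcases le_or_gt (D * lam) (p - d) with hle | hgt
  · exact h.accounting_le g A h0 hK hsum hle
  · exact h.accounting_gt g hD A h0 hK hCA hsum hgt

/-- UNIT B2 -/
theorem accounting_one (h : Cfg S p d) {lam : ℤ}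
    (g : Gen (sI S p) 1 lam)
    (hC : ((sC' S p d 1 lam).card : ℤ) + lam ≤ (sC' S p d 1 lam - sI S p).card) : False := by
  classical
  rcases le_or_gt (1 * lam) (p - d) with hle | hgt
  · refine h.accounting_le g {0} (mem_singleton_self 0)
      (fun w _ => ⟨0, mem_singleton_self 0, one_dvd _⟩) ?_ hle
    rw [card_singleton]
    simpa using hC
  have hd := h.hd
  have hdp := h.hdp
  have hbig := h.big
  have hlam := g.lam0
  have hlp := h.top_lt g
  have hz := h.zone_count g
  have hup := h.upper (1 * lam) (by omega)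
  have hC'c := h.cC' 1 lam
  have hs := h.card_split
  have r1 := h.cR
  have r2 := cnt_add (sR S p d) (-d) (p - d - 1 * lam) (2 * p - d) (by omega) (by omega)
  have r3 := cnt_add (sR S p d) (p - d - 1 * lam) (p - d + 1 * lam) (2 * p - d) (by omega)
    (by omega)
  have c1 := h.cC
  have c2 := cnt_add (sC S p d) (p - d) (p - d + 1 * lam) (2 * p - d) (by omega) (by omega)
  -- the three disjoint sets
  set N := ((sR S p d).filter (fun x => -d ≤ x ∧ x < p - d - 1 * lam)).image (fun x => x + p)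
    with hN
  have hNc : N.card = cnt (sR S p d) (-d) (p - d - 1 * lam) := by
    rw [hN, card_image_of_injective _ (fun x y h => by simpa using h)]
    rfl
  have hNmem : ∀ x ∈ N, p - d ≤ x ∧ x < p - d + (p - 1 * lam) ∧ 2 * p + x ∈ S := by
    intro x hx
    rw [hN, mem_image] at hx
    obtain ⟨y, hy, rfl⟩ := hx
    rw [mem_filter, mem_sR] at hy
    refine ⟨by omega, by omega, ?_⟩
    have e : 2 * p + (y + p) = 3 * p + y := by ring
    rw [e]; exact hy.1.2
  have hd1 : Disjoint (sI S p) (sK S p d) := by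
    rw [disjoint_left]
    intro x hx hx'
    exact h.IK hx hx'
  have hd2 : Disjoint (sI S p ∪ sK S p d) N := by
    rw [disjoint_left]
    intro x hx hx'
    have h1 := hNmem x hx'
    rcases mem_union.1 hx with hx | hx
    · rw [mem_sI] at hx
      apply h.sf _ hx.2 _ h.pS
      have e : p + x + p = 2 * p + x := by ring
      rw [e]; exact h1.2.2
    · rw [mem_sK] at hx
      omega
  have hcard : ((sI S p).card : ℤ) + (sK S p d).card + N.card ≤
      max (1 * lam) (p - d + (p - 1 - 1 * lam)) + 1 := by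
    have hsub : (sI S p ∪ sK S p d) ∪ N ⊆
        Finset.Ico 0 (max (1 * lam) (p - d + (p - 1 - 1 * lam)) + 1) := by
      intro x hx
      rw [Finset.mem_Ico]
      have m1 := le_max_left (1 * lam) (p - d + (p - 1 - 1 * lam))
      have m2 := le_max_right (1 * lam) (p - d + (p - 1 - 1 * lam))
      rcases mem_union.1 hx with hx | hx
      · rcases mem_union.1 hx with hx | hx
        · have := g.rng x hx
          omega
        · rw [mem_sK] at hx
          omega
      · have := hNmem x hx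
        omega
    have h1 := card_le_card hsub
    rw [card_union_of_disjoint hd2, card_union_of_disjoint hd1, Int.card_Ico] at h1
    have m1 := le_max_left (1 * lam) (p - d + (p - 1 - 1 * lam))
    omega
  rcases le_total (1 * lam) (p - d + (p - 1 - 1 * lam)) with hm | hm
  · rw [max_eq_right hm] at hcard
    omega
  · rw [max_eq_left hm] at hcard
    omega

end Cfg

end MinEven
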