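import Mathlib

/-!
# Kneser's theorem in a finite abelian group

For nonempty finite sets `A`, `B` of a finite abelian group there is a subgroup `H` such that
`A + B` is a union of cosets of `H` and `|A + B| + |H| ≥ |A + H| + |B + H|`.
-/

namespace Pool.Agent.H96.Kneser

open Finset
open scoped Pointwise

variable {G : Type*} [AddCommGroup G] [DecidableEq G]

/-- The stabilizer of a finite set. -/
def stab (C : Finset G) : AddSubgroup G where
  carrier := {h | ∀ x, x + h ∈ C ↔ x ∈ C}
  zero_mem' := by intro x; simp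
  add_mem' := by
    intro a b ha hb x
    have h1 : x + (a + b) = (x + a) + b := by abel
    rw [h1, hb, ha]
  neg_mem' := by
    intro a ha x
    have h1 := ha (x + -a)
    rw [neg_add_cancel_right] at h1
    exact h1.symm

omit [DecidableEq G] in
theorem mem_stab {C : Finset G} {h : G} : h ∈ stab C ↔ ∀ x, x + h ∈ C ↔ x ∈ C := Iff.rfl

theorem mem_stab_of_sub {C : Finset G} {h : G} (hs : ∀ x ∈ C, x + h ∈ C) : h ∈ stab C := by
  have hinj : Function.Injective (fun x : G => x + h) := fun a b hab => by simpa using hab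
  have himg : C.image (fun x => x + h) = C := by
    apply Finset.eq_of_subset_of_card_le
    · intro y hy
      obtain ⟨x, hx, rfl⟩ := Finset.mem_image.1 hy
      exact hs x hx
    · rw [Finset.card_image_of_injective _ hinj]
  intro x
  constructor
  · intro hx
    rw [← himg] at hx
    obtain ⟨y, hy, hyx⟩ := Finset.mem_image.1 hx
    have : y = x := hinj hyx
    rwa [← this]
  · exact hs x

variable [Fintype G]

open Classical in
/-- A subgroup as a finite set. -/
noncomputable def fs (H : AddSubgroup G) : Finset G := Finset.univ.filter (fun x => x ∈ H)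

omit [DecidableEq G] in
theorem mem_fs {H : AddSubgroup G} {x : G} : x ∈ fs H ↔ x ∈ H := by
  classical
  simp [fs]

omit [DecidableEq G] in
theorem card_fs (H : AddSubgroup G) : (fs H).card = Nat.card H := by
  classical
  rw [Nat.card_eq_fintype_card, Fintype.card_subtype]
  simp [fs]

omit [DecidableEq G] in
theorem fs_card_pos (H : AddSubgroup G) : 0 < (fs H).card :=
  Finset.card_pos.2 ⟨0, mem_fs.2 H.zero_mem⟩

omit [DecidableEq G] in
theorem fs_card_mono {H K : AddSubgroup G} (h : H ≤ K) : (fs H).card ≤ (fs K).card :=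
  Finset.card_le_card fun _ hx => mem_fs.2 (h (mem_fs.1 hx))

/-- A product of two subsets of subgroups maps to `G` with fibres of size at most `|H₁ ∩ H₂|`. -/
theorem prod_card_le (H1 H2 : AddSubgroup G) (V U T : Finset G) (x : G)
    (hV : V ⊆ fs H1) (hU : U ⊆ fs H2)
    (hT : ∀ a ∈ V, ∀ b ∈ U, x + a + b ∈ T) :
    V.card * U.card ≤ (fs (H1 ⊓ H2)).card * T.card := by
  rw [← Finset.card_product]
  apply Finset.card_le_mul_card_image_of_maps_to (f := fun q : G × G => x + q.1 + q.2)
  · rintro ⟨a, b⟩ hab
    obtain ⟨ha, hb⟩ := Finset.mem_product.1 hab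
    exact hT a ha b hb
  · intro y _
    by_cases hne : ((V ×ˢ U).filter (fun q : G × G => x + q.1 + q.2 = y)).Nonempty
    · obtain ⟨⟨a0, b0⟩, hq⟩ := hne
      obtain ⟨hq1, hq2⟩ := Finset.mem_filter.1 hq
      obtain ⟨ha0, hb0⟩ := Finset.mem_product.1 hq1
      apply Finset.card_le_card_of_injOn (fun q : G × G => q.1 - a0)
      · rintro ⟨a, b⟩ hab
        obtain ⟨hab1, hab2⟩ := Finset.mem_filter.1 hab
        obtain ⟨ha, hb⟩ := Finset.mem_product.1 hab1
        simp only at hab2 hq2 ha hb ha0 hb0 ⊢
        rw [Finset.mem_coe, mem_fs]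
        refine ⟨H1.sub_mem (mem_fs.1 (hV ha)) (mem_fs.1 (hV ha0)), ?_⟩
        have h1 : a - a0 = b0 - b := by
          have h2 : x + a + b = x + a0 + b0 := by rw [hab2, hq2]
          have h3 : a + b = a0 + b0 := by
            have := h2
            rw [add_assoc, add_assoc] at this
            exact add_left_cancel this
          rw [sub_eq_sub_iff_add_eq_add, h3, add_comm]
        have h4 : b0 - b ∈ H2 := H2.sub_mem (mem_fs.1 (hU hb0)) (mem_fs.1 (hU hb))
        show a - a0 ∈ H2
        rw [h1]
        exact h4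
      · rintro ⟨a, b⟩ hab ⟨c, d⟩ hcd hac
        have hab2 : x + a + b = y := (Finset.mem_filter.1 hab).2
        have hcd2 : x + c + d = y := (Finset.mem_filter.1 hcd).2
        have hac' : a = c := by
          have h5 : a - a0 = c - a0 := hac
          exact sub_left_injective h5
        subst hac'
        have : b = d := by
          have h6 : x + a + b = x + a + d := by rw [hab2, hcd2]
          exact add_left_cancel h6
        rw [this]
    · rw [Finset.not_nonempty_iff_eq_empty] at hne
      rw [hne]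
      simp

theorem half (H1 H2 : AddSubgroup G) (C1 C2 : Finset G)
    (hC1 : ∀ x, ∀ h ∈ H1, x + h ∈ C1 ↔ x ∈ C1) (hC2 : ∀ x, ∀ h ∈ H2, x + h ∈ C2 ↔ x ∈ C2)
    (x : G) (hx1 : x ∈ C1) (hx2 : x ∉ C2)
    (hne : ∃ a ∈ H1, ∃ b ∈ H2, x + a + b ∈ C2) :
    (fs H2).card ≤ (C1 \ C2).card + (fs (H1 ⊓ H2)).card ∨
      (fs H1).card ≤ (C2 \ C1).card + (fs (H1 ⊓ H2)).card := by
  classical
  set h := (fs (H1 ⊓ H2)).card with hh
  set U := (fs H2).filter (fun b => x + b ∈ C1) with hU
  set U' := (fs H2).filter (fun b => x + b ∉ C1) with hU'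
  set V := (fs H1).filter (fun a => x + a ∈ C2) with hV
  set V' := (fs H1).filter (fun a => x + a ∉ C2) with hV'
  have hUU : U.card + U'.card = (fs H2).card := Finset.card_filter_add_card_filter_not _
  have hVV : V.card + V'.card = (fs H1).card := Finset.card_filter_add_card_filter_not _
  have h0 : 0 < h := fs_card_pos _
  have e1 : V'.card * U.card ≤ h * (C1 \ C2).card := by
    apply prod_card_le H1 H2 V' U (C1 \ C2) x (Finset.filter_subset _ _)
      (Finset.filter_subset _ _)
    intro a ha b hb
    obtain ⟨ha1, ha2⟩ := Finset.mem_filter.1 ha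
    obtain ⟨hb1, hb2⟩ := Finset.mem_filter.1 hb
    rw [Finset.mem_sdiff]
    constructor
    · have : x + a + b = x + b + a := by abel
      rw [this, hC1 _ a (mem_fs.1 ha1)]
      exact hb2
    · rw [hC2 _ b (mem_fs.1 hb1)]
      exact ha2
  have e2 : V.card * U'.card ≤ h * (C2 \ C1).card := by
    apply prod_card_le H1 H2 V U' (C2 \ C1) x (Finset.filter_subset _ _)
      (Finset.filter_subset _ _)
    intro a ha b hb
    obtain ⟨ha1, ha2⟩ := Finset.mem_filter.1 ha
    obtain ⟨hb1, hb2⟩ := Finset.mem_filter.1 hb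
    rw [Finset.mem_sdiff]
    constructor
    · rw [hC2 _ b (mem_fs.1 hb1)]
      exact ha2
    · have : x + a + b = x + b + a := by abel
      rw [this, hC1 _ a (mem_fs.1 ha1)]
      exact hb2
  have f1 : h ≤ U.card := by
    apply Finset.card_le_card
    intro k hk
    have hk' := mem_fs.1 hk
    refine Finset.mem_filter.2 ⟨mem_fs.2 hk'.2, ?_⟩
    rw [hC1 _ k hk'.1]
    exact hx1
  have f2 : h ≤ V'.card := by
    apply Finset.card_le_card
    intro k hk
    have hk' := mem_fs.1 hk
    refine Finset.mem_filter.2 ⟨mem_fs.2 hk'.1, ?_⟩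
    rw [hC2 _ k hk'.2]
    exact hx2
  have f3 : h ≤ V.card := by
    obtain ⟨a, ha, b, hb, hab⟩ := hne
    rw [hC2 _ b hb] at hab
    apply Finset.card_le_card_of_injOn (fun k => a + k)
    · intro k hk
      have hk' := mem_fs.1 (Finset.mem_coe.1 hk)
      rw [Finset.mem_coe]
      refine Finset.mem_filter.2 ⟨mem_fs.2 (H1.add_mem ha hk'.1), ?_⟩
      rw [← add_assoc, hC2 _ k hk'.2]
      exact hab
    · intro k _ l _ hkl
      exact add_left_cancel hkl
  have f4 : U'.card = 0 ∨ h ≤ U'.card := by
    rcases Finset.eq_empty_or_nonempty U' with he | ⟨b, hb⟩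
    · left; rw [he]; simp
    · right
      obtain ⟨hb1, hb2⟩ := Finset.mem_filter.1 hb
      apply Finset.card_le_card_of_injOn (fun k => b + k)
      · intro k hk
        have hk' := mem_fs.1 (Finset.mem_coe.1 hk)
        rw [Finset.mem_coe]
        refine Finset.mem_filter.2 ⟨mem_fs.2 (H2.add_mem (mem_fs.1 hb1) hk'.2), ?_⟩
        rw [← add_assoc, hC1 _ k hk'.1]
        exact hb2
      · intro k _ l _ hkl
        exact add_left_cancel hkl
  by_contra hcon
  push Not at hcon
  obtain ⟨g1, g2⟩ := hcon
  rw [← hUU] at g1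
  rw [← hVV] at g2
  generalize U.card = u at *
  generalize U'.card = b at *
  generalize V.card = v at *
  generalize V'.card = a at *
  generalize (C1 \ C2).card = c1 at *
  generalize (C2 \ C1).card = c2 at *
  rcases f4 with f4 | f4
  · subst f4
    have k1 : h * u ≤ h * c1 := le_trans (Nat.mul_le_mul_right _ f2) e1
    have k2 : u ≤ c1 := Nat.le_of_mul_le_mul_left k1 h0
    omega
  · obtain ⟨a', rfl⟩ := Nat.exists_eq_add_of_le f2
    obtain ⟨b', rfl⟩ := Nat.exists_eq_add_of_le f4
    have k1 : h * a' + h * h < h * b' + h * h := by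
      have h1 : (h + a') * u < h * (u + b') := by
        refine lt_of_le_of_lt e1 (Nat.mul_lt_mul_of_pos_left ?_ h0)
        omega
      have h2 : h * a' ≤ u * a' := Nat.mul_le_mul_right _ f1
      nlinarith
    have k2 : h * b' + h * h < h * a' + h * h := by
      have h1 : v * (h + b') < h * (v + a') := by
        refine lt_of_le_of_lt e2 (Nat.mul_lt_mul_of_pos_left ?_ h0)
        omega
      have h2 : h * b' ≤ v * b' := Nat.mul_le_mul_right _ f3
      nlinarith
    omega

theorem union_lemma (H1 H2 : AddSubgroup G) (C1 C2 : Finset G)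
    (hC1 : ∀ x, ∀ h ∈ H1, x + h ∈ C1 ↔ x ∈ C1) (hC2 : ∀ x, ∀ h ∈ H2, x + h ∈ C2 ↔ x ∈ C2)
    (h12 : ¬ C1 ⊆ C2) (h21 : ¬ C2 ⊆ C1) :
    (fs H2).card ≤ (C1 \ C2).card + (fs (H1 ⊓ H2)).card ∨
      (fs H1).card ≤ (C2 \ C1).card + (fs (H1 ⊓ H2)).card := by
  classical
  obtain ⟨x, hx1, hx2⟩ := Finset.not_subset.1 h12
  obtain ⟨y, hy2, hy1⟩ := Finset.not_subset.1 h21
  by_cases hx : ∃ a ∈ H1, ∃ b ∈ H2, x + a + b ∈ C2
  · exact half H1 H2 C1 C2 hC1 hC2 x hx1 hx2 hx
  by_cases hy : ∃ a ∈ H2, ∃ b ∈ H1, y + a + b ∈ C1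
  · have := half H2 H1 C2 C1 hC2 hC1 y hy2 hy1 hy
    rw [inf_comm] at this
    exact this.symm
  push Not at hx hy
  have e1 : (fs H1).card ≤ (C1 \ C2).card := by
    apply Finset.card_le_card_of_injOn (fun k => x + k)
    · intro k hk
      have hk' := mem_fs.1 (Finset.mem_coe.1 hk)
      rw [Finset.mem_coe, Finset.mem_sdiff]
      refine ⟨(hC1 _ k hk').2 hx1, ?_⟩
      have := hx k hk' 0 H2.zero_mem
      rwa [add_zero] at this
    · intro k _ l _ hkl
      exact add_left_cancel hkl
  have e2 : (fs H2).card ≤ (C2 \ C1).card := by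
    apply Finset.card_le_card_of_injOn (fun k => y + k)
    · intro k hk
      have hk' := mem_fs.1 (Finset.mem_coe.1 hk)
      rw [Finset.mem_coe, Finset.mem_sdiff]
      refine ⟨(hC2 _ k hk').2 hy2, ?_⟩
      have := hy k hk' 0 H1.zero_mem
      rwa [add_zero] at this
    · intro k _ l _ hkl
      exact add_left_cancel hkl
  rcases le_total (fs H1).card (fs H2).card with h | h
  · right; omega
  · left; omega

theorem union_card (C1 C2 : Finset G) (N : ℕ) (h1 : N ≤ C1.card + (fs (stab C1)).card)
    (h2 : N ≤ C2.card + (fs (stab C2)).card) :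
    N ≤ (C1 ∪ C2).card + (fs (stab (C1 ∪ C2))).card := by
  classical
  by_cases h12 : C1 ⊆ C2
  · rw [Finset.union_eq_right.2 h12]; exact h2
  by_cases h21 : C2 ⊆ C1
  · rw [Finset.union_eq_left.2 h21]; exact h1
  have hle : (fs (stab C1 ⊓ stab C2)).card ≤ (fs (stab (C1 ∪ C2))).card := by
    apply fs_card_mono
    rintro h ⟨ha, hb⟩ x
    rw [Finset.mem_union, Finset.mem_union, mem_stab.1 ha x, mem_stab.1 hb x]
  have c1 : (C1 \ C2).card + C2.card = (C1 ∪ C2).card := Finset.card_sdiff_add_card _ _
  have c2 : (C2 \ C1).card + C1.card = (C1 ∪ C2).card := by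
    rw [Finset.card_sdiff_add_card, Finset.union_comm]
  rcases union_lemma (stab C1) (stab C2) C1 C2 (fun x h hh => mem_stab.1 hh x)
    (fun x h hh => mem_stab.1 hh x) h12 h21 with h | h
  · omega
  · omega

theorem family_card (C : Finset G) (hC : C.Nonempty) (N : ℕ)
    (hfam : ∀ c ∈ C, ∃ D ⊆ C, c ∈ D ∧ N ≤ D.card + (fs (stab D)).card) :
    N ≤ C.card + (fs (stab C)).card := by
  classical
  have key : ∀ s : Finset G, s.Nonempty → s ⊆ C →
      ∃ D, s ⊆ D ∧ D ⊆ C ∧ N ≤ D.card + (fs (stab D)).card := by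
    intro s hs
    induction hs using Finset.Nonempty.cons_induction with
    | singleton a =>
      intro ha
      obtain ⟨D, hD, haD, hN⟩ := hfam a (ha (Finset.mem_singleton_self a))
      exact ⟨D, Finset.singleton_subset_iff.2 haD, hD, hN⟩
    | cons a s has hs ih =>
      intro hsC
      have ha : a ∈ C := hsC (Finset.mem_cons_self a s)
      obtain ⟨D, hD, haD, hN⟩ := hfam a ha
      obtain ⟨E, hsE, hE, hN'⟩ := ih (fun y hy => hsC (Finset.mem_cons_of_mem hy))
      refine ⟨D ∪ E, ?_, Finset.union_subset hD hE, union_card D E N hN hN'⟩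
      intro y hy
      rcases Finset.mem_cons.1 hy with rfl | hy
      · exact Finset.mem_union_left _ haD
      · exact Finset.mem_union_right _ (hsE hy)
  obtain ⟨D, h1, h2, h3⟩ := key C hC (Finset.Subset.refl C)
  have : D = C := Finset.Subset.antisymm h2 h1
  rwa [this] at h3

theorem dyson (n : ℕ) : ∀ A B : Finset G, B.card ≤ n → ∀ a0 ∈ A, ∀ b0 ∈ B,
    ∃ C ⊆ A + B, a0 + b0 ∈ C ∧ A.card + B.card ≤ C.card + (fs (stab C)).card := by
  induction n with
  | zero =>
    intro A B hB a0 _ b0 hb0
    have : B.card = 0 := Nat.le_zero.1 hB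
    rw [Finset.card_eq_zero] at this
    rw [this] at hb0
    simp at hb0
  | succ n ih =>
    intro A B hB a0 ha0 b0 hb0
    by_cases hall : ∀ a ∈ A, ∀ b ∈ B, a + (b - b0) ∈ A
    · -- `A` is stable under `B - b0`
      refine ⟨A + {b0}, Finset.add_subset_add_left (Finset.singleton_subset_iff.2 hb0),
        Finset.add_mem_add ha0 (Finset.mem_singleton_self _), ?_⟩
      have hc : (A + {b0}).card = A.card := by
        rw [Finset.add_singleton]
        exact Finset.card_image_of_injective _ (fun a b hab => by simpa using hab)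
      rw [hc]
      have : B.card ≤ (fs (stab (A + {b0}))).card := by
        apply Finset.card_le_card_of_injOn (fun b => b - b0)
        · intro b hb
          rw [Finset.mem_coe] at hb ⊢
          rw [mem_fs]
          apply mem_stab_of_sub
          intro y hy
          obtain ⟨a, ha, z, hz, rfl⟩ := Finset.mem_add.1 hy
          rw [Finset.mem_singleton] at hz
          have h5 : a + z + (b - b0) = (a + (b - b0)) + b0 := by rw [hz]; abel
          show a + z + (b - b0) ∈ A + {b0}
          rw [h5]
          exact Finset.add_mem_add (hall a ha b hb) (Finset.mem_singleton_self _)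
        · intro b _ c _ hbc
          exact sub_left_injective hbc
      omega
    · push Not at hall
      obtain ⟨a, ha, b, hb, hab⟩ := hall
      set e := a - b0 with he
      set A1 := A ∪ B.image (fun y => y + e) with hA1
      set B1 := B.filter (fun y => y + e ∈ A) with hB1
      have hinj : Function.Injective (fun y : G => y + e) := fun p q hpq => by simpa using hpq
      have hb1 : B1.card ≤ n := by
        have hlt : B1.card < B.card := by
          apply Finset.card_lt_card
          refine ⟨Finset.filter_subset _ _, ?_⟩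
          intro hsub
          have := (Finset.mem_filter.1 (hsub hb)).2
          apply hab
          have h1 : a + (b - b0) = b + e := by rw [he]; abel
          rwa [h1]
        omega
      have hb0' : b0 ∈ B1 := by
        refine Finset.mem_filter.2 ⟨hb0, ?_⟩
        rw [he]
        have : b0 + (a - b0) = a := by abel
        rwa [this]
      obtain ⟨C, hC, hmem, hcard⟩ := ih A1 B1 hb1 a0 (Finset.mem_union_left _ ha0) b0 hb0'
      refine ⟨C, hC.trans ?_, hmem, ?_⟩
      · intro z hz
        obtain ⟨p, hp, q, hq, rfl⟩ := Finset.mem_add.1 hz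
        obtain ⟨hq1, hq2⟩ := Finset.mem_filter.1 hq
        rcases Finset.mem_union.1 hp with hp | hp
        · exact Finset.add_mem_add hp hq1
        · obtain ⟨y, hy, rfl⟩ := Finset.mem_image.1 hp
          have : y + e + q = (q + e) + y := by abel
          rw [this]
          exact Finset.add_mem_add hq2 hy
      · refine le_trans (le_of_eq ?_) hcard
        have h1 : (B1.image (fun y => y + e)) = A ∩ B.image (fun y => y + e) := by
          ext z
          simp only [hB1, Finset.mem_image, Finset.mem_filter, Finset.mem_inter]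
          constructor
          · rintro ⟨y, ⟨hy1, hy2⟩, rfl⟩
            exact ⟨hy2, y, hy1, rfl⟩
          · rintro ⟨hz, y, hy, rfl⟩
            exact ⟨y, ⟨hy, hz⟩, rfl⟩
        have h2 : B1.card = (A ∩ B.image (fun y => y + e)).card := by
          rw [← h1, Finset.card_image_of_injective _ hinj]
        have h3 := Finset.card_union_add_card_inter A (B.image (fun y => y + e))
        rw [Finset.card_image_of_injective _ hinj] at h3
        rw [h2, hA1, h3]

/-- Weak form: `|A + B| + |H| ≥ |A| + |B|`, `H` the stabilizer of `A + B`. -/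
theorem weak (A B : Finset G) (hA : A.Nonempty) (hB : B.Nonempty) :
    A.card + B.card ≤ (A + B).card + (fs (stab (A + B))).card := by
  apply family_card _ (hA.add hB)
  intro c hc
  obtain ⟨a, ha, b, hb, rfl⟩ := Finset.mem_add.1 hc
  exact dyson B.card A B le_rfl a ha b hb

/-- **Kneser's theorem** for finite abelian groups. -/
theorem kneser (A B : Finset G) (hA : A.Nonempty) (hB : B.Nonempty) :
    ∃ (H : AddSubgroup G) (Hf : Finset G), (∀ x, x ∈ Hf ↔ x ∈ H) ∧
      (∀ h ∈ H, ∀ x ∈ A + B, x + h ∈ A + B) ∧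
      (A + Hf).card + (B + Hf).card ≤ (A + B).card + Nat.card H := by
  refine ⟨stab (A + B), fs (stab (A + B)), fun x => mem_fs, ?_, ?_⟩
  · intro h hh x hx
    exact (mem_stab.1 hh x).2 hx
  · set H := stab (A + B) with hH
    have hsum : (A + fs H) + (B + fs H) = A + B := by
      ext z
      constructor
      · intro hz
        obtain ⟨p, hp, q, hq, rfl⟩ := Finset.mem_add.1 hz
        obtain ⟨a, ha, h1, hh1, rfl⟩ := Finset.mem_add.1 hp
        obtain ⟨b, hb, h2, hh2, rfl⟩ := Finset.mem_add.1 hq
        have h3 : a + h1 + (b + h2) = (a + b) + (h1 + h2) := by abel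
        rw [h3]
        have h4 : h1 + h2 ∈ H := H.add_mem (mem_fs.1 hh1) (mem_fs.1 hh2)
        exact (mem_stab.1 h4 _).2 (Finset.add_mem_add ha hb)
      · intro hz
        obtain ⟨a, ha, b, hb, rfl⟩ := Finset.mem_add.1 hz
        have h0 : (0 : G) ∈ fs H := mem_fs.2 H.zero_mem
        have ha' : a + 0 ∈ A + fs H := Finset.add_mem_add ha h0
        have hb' : b + 0 ∈ B + fs H := Finset.add_mem_add hb h0
        rw [add_zero] at ha' hb'
        exact Finset.add_mem_add ha' hb'
    have hne : (fs H).Nonempty := ⟨0, mem_fs.2 H.zero_mem⟩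
    have := weak (A + fs H) (B + fs H) (hA.add hne) (hB.add hne)
    rw [hsum, ← hH, card_fs] at this
    exact this

end Pool.Agent.H96.Kneser
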